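import Pool.Agent.V8H36.KL.T2

set_option autoImplicit false

open Filter MeasureTheory

namespace Pool.Agent.Results.MP_67227b_nt.Hierarchy

/-- multiplicity of `s` as a zero of the Riemann zeta function -/
noncomputable def zmult (s : ℂ) : ℕ := analyticOrderNatAt riemannZeta s

/-- the number of nontrivial zeros of `ζ` with ordinate in `(0, t]`, with multiplicity -/
noncomputable def NZ (t : ℝ) : ℕ :=
  ∑ᶠ s ∈ {s : ℂ | riemannZeta s = 0 ∧ 0 < s.re ∧ s.re < 1 ∧ 0 < s.im ∧ s.im ≤ t}, zmult s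

/-- for `n ≥ 1`: the `n`-th positive ordinate of a nontrivial zero of `ζ` (nondecreasing order, repeated
according to multiplicity) -/
noncomputable def γ (n : ℕ) : ℝ := sInf {t : ℝ | n ≤ NZ t}

/-- `N_k(T; B)` with `k = r + 1` and `B = ∏ [a_i, b_i]` -/
noncomputable def Nk (r : ℕ) (T : ℝ) (a b : Fin r → ℝ) : ℕ :=
  {j : Fin (r + 1) → ℕ | Function.Injective j ∧ (∀ i, 1 ≤ j i ∧ γ (j i) ≤ T) ∧
    ∀ i : Fin r, (γ (j i.castSucc) - γ (j (Fin.last r))) * (Real.log T / (2 * Real.pi)) ∈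
      Set.Icc (a i) (b i)}.ncard

/-- `sin (π x) / (π x)` -/
noncomputable def S (x : ℝ) : ℝ := if x = 0 then 1 else Real.sin (Real.pi * x) / (Real.pi * x)

/-- `det A(u_1, ..., u_r, 0)` -/
noncomputable def detA (r : ℕ) (u : Fin r → ℝ) : ℝ :=
  (Matrix.of fun i j : Fin (r + 1) => S ((Fin.snoc u 0 : Fin (r + 1) → ℝ) i - (Fin.snoc u 0 : Fin (r + 1) → ℝ) j)).det

/-- the asymptotic formula of the question for `k = r + 1` and the box `∏ [a_i, b_i]`, when `T → ∞` along the filter `F` -/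
def Law (r : ℕ) (F : Filter ℝ) (a b : Fin r → ℝ) : Prop :=
  Tendsto (fun T : ℝ => (Nk r T a b : ℝ) / (T / (2 * Real.pi) * Real.log T)) F (nhds (∫ u in Set.Icc a b, detA r u))

/-- the assertion of the question for `k = r + 1`, along the filter `F` -/
def Level (r : ℕ) (F : Filter ℝ) : Prop := ∀ a b : Fin r → ℝ, (∀ i, a i < b i) → Law r F a b

theorem S_eq (x : ℝ) : S x = Real.sinc (Real.pi * x) := by
  unfold S
  rw [Real.sinc_apply]
  by_cases h : x = 0
  · rw [if_pos h, if_pos (by rw [h, mul_zero])]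
  · rw [if_neg h, if_neg (mul_ne_zero Real.pi_ne_zero h)]

theorem detA_eq (r : ℕ) : detA r = Pool.Agent.V8H36.KL.dA r := by
  funext u
  unfold detA Pool.Agent.V8H36.KL.dA
  congr 1
  ext i j
  rw [Matrix.of_apply, S_eq]
  rfl

theorem Law_iff (r : ℕ) (F : Filter ℝ) (a b : Fin r → ℝ) : Law r F a b ↔ Pool.Agent.V8H36.KL.Law r F a b := by
  unfold Law Pool.Agent.V8H36.KL.Law
  rw [detA_eq]
  rfl

/-- one level down, box by box -/
theorem step (r : ℕ) (F : Filter ℝ) (hF : F ≤ atTop) (a b : Fin r → ℝ) (hab : ∀ i, a i ≤ b i)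
    (h : ∃ᶠ R : ℝ in atTop, Law (r + 1) F (Fin.snoc a 0) (Fin.snoc b R)) : Law r F a b := by
  rw [Law_iff]
  apply Pool.Agent.V8H36.KL.hierarchy r F hF a b hab
  refine h.mono fun R hR => ?_
  rwa [Law_iff] at hR

/-- one level down -/
theorem down (F : Filter ℝ) (hF : F ≤ atTop) (r : ℕ) (h : Level (r + 1) F) : Level r F := by
  intro a b hab
  apply step r F hF a b (fun i => (hab i).le)
  apply Eventually.frequently
  filter_upwards [eventually_gt_atTop (0 : ℝ)] with R hR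
  apply h
  intro i
  refine Fin.lastCases ?_ (fun k => ?_) i
  · rw [Fin.snoc_last, Fin.snoc_last]; exact hR
  · rw [Fin.snoc_castSucc, Fin.snoc_castSucc]; exact hab k

/-- all lower levels -/
theorem down_all (F : Filter ℝ) (hF : F ≤ atTop) {r r' : ℕ} (hr : r ≤ r') (h : Level r' F) : Level r F := by
  induction r', hr using Nat.le_induction with
  | base => exact h
  | succ n _ ih => exact ih (down F hF n h)

/-- **Main theorem.** -/
theorem result :
    -- the two levels are close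
    (∀ (r : ℕ) (a b : Fin r → ℝ), (∀ i, a i ≤ b i) → ∃ C : ℝ, 1 ≤ C ∧ ∀ R : ℝ, 1 ≤ R → ∀ᶠ T : ℝ in atTop,
      |(Nk (r + 1) T (Fin.snoc a 0) (Fin.snoc b R) : ℝ) - R * (Nk r T a b : ℝ)| ≤
        C * R ^ (3 / 4 : ℝ) * (T / (2 * Real.pi) * Real.log T)) ∧
    -- one level down, box by box
    (∀ (r : ℕ) (F : Filter ℝ), F ≤ atTop → ∀ a b : Fin r → ℝ, (∀ i, a i ≤ b i) →
      (∃ᶠ R : ℝ in atTop, Law (r + 1) F (Fin.snoc a 0) (Fin.snoc b R)) → Law r F a b) ∧
    -- failures propagate upwards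
    (∀ (r : ℕ) (F : Filter ℝ), F ≤ atTop → ∀ a b : Fin r → ℝ, (∀ i, a i ≤ b i) → ¬ Law r F a b →
      ∀ᶠ R : ℝ in atTop, ¬ Law (r + 1) F (Fin.snoc a 0) (Fin.snoc b R)) ∧
    -- each level contains the lower ones
    (∀ (F : Filter ℝ), F ≤ atTop → ∀ r r' : ℕ, r ≤ r' → Level r' F → Level r F) ∧
    -- infinitely many levels are enough
    (∀ (F : Filter ℝ), F ≤ atTop → (∀ r : ℕ, ∃ r' : ℕ, r ≤ r' ∧ Level r' F) → ∀ r : ℕ, Level r F) := by
  refine ⟨fun r a b hab => Pool.Agent.V8H36.KL.Nk_ext r a b hab, step, ?_, fun F hF r r' hr h => down_all F hF hr h, ?_⟩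
  · intro r F hF a b hab h
    by_contra hcon
    apply h
    apply step r F hF a b hab
    intro h2
    exact hcon h2
  · intro F hF h r
    obtain ⟨r', hr, h'⟩ := h r
    exact down_all F hF hr h'

end Pool.Agent.Results.MP_67227b_nt.Hierarchy
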