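import Pool.Agent.V8H36.KL.T2

set_option autoImplicit false

open Filter MeasureTheory

namespace Pool.Agent.Results.MP_67227b_nt.LongBoxesRelative

/-- multiplicity of `s` as a zero of the Riemann zeta function -/
noncomputable def zmult (s : ℂ) : ℕ := analyticOrderNatAt riemannZeta s

/-- the number of nontrivial zeros of `ζ` with ordinate in `(0, t]`, with multiplicity -/
noncomputable def NZ (t : ℝ) : ℕ :=
  ∑ᶠ s ∈ {s : ℂ | riemannZeta s = 0 ∧ 0 < s.re ∧ s.re < 1 ∧ 0 < s.im ∧ s.im ≤ t}, zmult s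

/-- for `n ≥ 1`: the `n`-th positive ordinate of a nontrivial zero of `ζ` (nondecreasing order, repeated
according to multiplicity) -/
noncomputable def γ (n : ℕ) : ℝ := sInf {t : ℝ | n ≤ NZ t}

/-- Dirichlet polynomials -/
noncomputable def P (N : ℕ) (c : ℕ → ℂ) (t : ℝ) : ℂ := ∑ n ∈ Finset.Icc 1 N, c n * (n : ℂ) ^ (-(t * Complex.I))

/-- the `k`-tuples, `k = r + 1`, of distinct indices whose last ordinate is in `(T, 2T]` and whose normalised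
differences with the last ordinate are in the box `∏ [a_i, a_i + s_i]` -/
def tuples (r : ℕ) (T : ℝ) (a s : Fin r → ℝ) : Set (Fin (r + 1) → ℕ) :=
  {j | Function.Injective j ∧ (∀ i, 1 ≤ j i) ∧ T < γ (j (Fin.last r)) ∧ γ (j (Fin.last r)) ≤ 2 * T ∧
    ∀ i : Fin r, (γ (j i.castSucc) - γ (j (Fin.last r))) * (Real.log T / (2 * Real.pi)) ∈ Set.Icc (a i) (a i + s i)}

/-- `N_k(T; B)` with `k = r + 1` and `B = ∏ [a_i, b_i]` -/
noncomputable def Nk (r : ℕ) (T : ℝ) (a b : Fin r → ℝ) : ℕ :=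
  {j : Fin (r + 1) → ℕ | Function.Injective j ∧ (∀ i, 1 ≤ j i ∧ γ (j i) ≤ T) ∧
    ∀ i : Fin r, (γ (j i.castSucc) - γ (j (Fin.last r))) * (Real.log T / (2 * Real.pi)) ∈
      Set.Icc (a i) (b i)}.ncard

/-- `sin (π x) / (π x)` -/
noncomputable def S (x : ℝ) : ℝ := if x = 0 then 1 else Real.sin (Real.pi * x) / (Real.pi * x)

/-- `det A(u_1, ..., u_r, 0)` -/
noncomputable def detA (r : ℕ) (u : Fin r → ℝ) : ℝ :=
  (Matrix.of fun i j : Fin (r + 1) => S ((Fin.snoc u 0 : Fin (r + 1) → ℝ) i - (Fin.snoc u 0 : Fin (r + 1) → ℝ) j)).det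

theorem γ_eq (n : ℕ) : γ n = SG.ord n := rfl

theorem S_eq (x : ℝ) : S x = Real.sinc (Real.pi * x) := by
  unfold S
  rw [Real.sinc_apply]
  by_cases h : x = 0
  · rw [if_pos h, if_pos (by rw [h, mul_zero])]
  · rw [if_neg h, if_neg (mul_ne_zero Real.pi_ne_zero h)]

theorem detA_eq (r : ℕ) : detA r = Pool.Agent.V8H36.KL.dA r := by
  funext u
  unfold detA Pool.Agent.V8H36.KL.dA
  congr 1
  ext i j
  rw [Matrix.of_apply, S_eq]
  rfl

theorem Nk_eq (r : ℕ) (T : ℝ) (a b : Fin r → ℝ) : Nk r T a b = (Pool.Agent.V8H36.KL.NkS r T a b).ncard := rfl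

theorem P_eq (N : ℕ) (c : ℕ → ℂ) (t : ℝ) : P N c t = Pool.Agent.Q97.UM.dp N (fun n => c n * (n : ℂ) ^ (1 / 2 : ℂ)) t := by
  unfold P Pool.Agent.Q97.UM.dp
  refine Finset.sum_congr rfl fun n hn => ?_
  have hn0 : (n : ℂ) ≠ 0 := by
    have := (Finset.mem_Icc.1 hn).1
    exact_mod_cast (by omega : n ≠ 0)
  rw [mul_assoc, ← Complex.cpow_add _ _ hn0]
  congr 2
  ring

theorem tuples_eq (r : ℕ) {T : ℝ} (hT : 1 < T) (a s : Fin r → ℝ) : tuples r T a s =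
    ↑(Pool.Agent.V8H36.KL.tup (Finset.Ioc (SG.NZ T) (SG.NZ (2 * T))) (Pool.Agent.V8H36.KL.JB T a (fun i => a i + s i))) := by
  have hL := Real.log_pos hT
  ext j
  rw [Finset.mem_coe, Pool.Agent.V8H36.KL.mem_tup, Pool.Agent.V8H36.KL.Ioc_eq (by linarith)]
  constructor
  · rintro ⟨h1, h2, h3, h4, h5⟩
    exact ⟨h1, ⟨h2 _, h3, h4⟩, fun i => (Pool.Agent.V8H36.KL.mem_JB hL).2 ⟨h2 _, h5 i⟩⟩
  · rintro ⟨h1, ⟨h2, h3, h4⟩, h5⟩
    refine ⟨h1, fun i => ?_, h3, h4, fun i => ((Pool.Agent.V8H36.KL.mem_JB hL).1 (h5 i)).2⟩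
    refine Fin.lastCases h2 (fun i => ((Pool.Agent.V8H36.KL.mem_JB hL).1 (h5 i)).1) i

/-- **Main theorem.** -/
theorem result :
    -- long boxes, relative to Dirichlet polynomials
    (∀ (r : ℕ) (ε : ℝ), 0 < ε → ∃ θ R : ℝ, 0 < θ ∧ 0 < R ∧ ∀ s : Fin r → ℝ, (∀ i, R ≤ s i) →
      ∀ᶠ T : ℝ in atTop, ∀ a : Fin r → ℝ, (∀ i, |a i| ≤ Real.sqrt T) → ∀ N : ℕ, (N : ℝ) ≤ T ^ θ → ∀ c : ℕ → ℂ,
        |∑ᶠ j ∈ tuples r T a s, ‖P N c (γ (j (Fin.last r)))‖ ^ 2 -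
          (∏ i, s i) * (Real.log T / (2 * Real.pi)) * ∫ t in T..(2 * T), ‖P N c t‖ ^ 2| ≤
        ε * ((∏ i, s i) * (Real.log T / (2 * Real.pi)) * ∫ t in T..(2 * T), ‖P N c t‖ ^ 2)) ∧
    -- the error term for long boxes
    (∀ r : ℕ, ∃ C : ℝ, 1 ≤ C ∧ ∀ a b : Fin r → ℝ, (∀ i, 1 ≤ b i - a i) → ∀ δ : ℝ, 0 < δ → ∀ᶠ T : ℝ in atTop,
      |(Nk r T a b : ℝ) - (∏ i, (b i - a i)) * (T / (2 * Real.pi) * Real.log T)| ≤
        (C * (∏ i, (b i - a i)) * (∑ i, (b i - a i) ^ (-(1 / 4) : ℝ)) + δ) * (T / (2 * Real.pi) * Real.log T)) ∧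
    -- the question for dilated boxes
    (∀ (r : ℕ) (a b : Fin r → ℝ), (∀ i, a i < b i) → ∀ ε : ℝ, 0 < ε → ∃ Λ : ℝ, 0 < Λ ∧ ∀ x : ℝ, Λ ≤ x →
      0 < (∫ u in Set.Icc (fun i => x * a i) (fun i => x * b i), detA r u) ∧ ∀ᶠ T : ℝ in atTop,
        |(Nk r T (fun i => x * a i) (fun i => x * b i) : ℝ) -
          (∫ u in Set.Icc (fun i => x * a i) (fun i => x * b i), detA r u) * (T / (2 * Real.pi) * Real.log T)| ≤
        ε * ((∫ u in Set.Icc (fun i => x * a i) (fun i => x * b i), detA r u) * (T / (2 * Real.pi) * Real.log T))) := by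
  refine ⟨?_, ?_, ?_⟩
  · intro r ε hε
    obtain ⟨θ, R, hθ, hR, h⟩ := Pool.Agent.V8H36.KL.rel_dyadic r ε hε
    refine ⟨θ, R, hθ, hR, fun s hs => ?_⟩
    filter_upwards [h s hs, eventually_gt_atTop (1 : ℝ)] with T h hT a ha N hN c
    have h1 := h a ha N hN (fun n => c n * (n : ℂ) ^ (1 / 2 : ℂ))
    simp only [← P_eq] at h1
    rw [tuples_eq r hT, finsum_mem_coe_finset]
    exact h1
  · intro r
    exact Pool.Agent.V8H36.KL.Nk_long r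
  · intro r a b hab ε hε
    rw [detA_eq]
    exact Pool.Agent.V8H36.KL.dilated r a b hab ε hε

end Pool.Agent.Results.MP_67227b_nt.LongBoxesRelative
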