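import Pool.Agent.V8H36.NR.Asm

set_option autoImplicit false

open Filter MeasureTheory

namespace Pool.Agent.Results.MP_67227b_nt.NumberRigidity

/-- the zeros of `ζ` in the critical strip, seen from `t` on the scale of the mean spacing: the multiplicity of
the zero `1/2 + i (t + 2 π z / log T)` (and `0` if this is not a zero in the strip) -/
noncomputable def conf (T t : ℝ) (z : ℂ) : ℕ :=
  if 0 < (1 / 2 + Complex.I * (t + 2 * Real.pi * z / Real.log T)).re ∧
      (1 / 2 + Complex.I * (t + 2 * Real.pi * z / Real.log T)).re < 1 then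
    analyticOrderNatAt riemannZeta (1 / 2 + Complex.I * (t + 2 * Real.pi * z / Real.log T)) else 0

open Classical in
/-- the number of zeros whose ordinate, seen from `t` on the scale of the mean spacing, is in `D`: the zeros with
`(γ - t) log T / (2 π) ∈ D`, with multiplicity -/
noncomputable def inside (T t : ℝ) (D : Set ℝ) : ℕ := ∑ᶠ z : ℂ, if z.re ∈ D then conf T t z else 0

open Classical in
/-- the configuration of the zeros outside of `D`, up to the distance `R` -/
noncomputable def outside (T t : ℝ) (D : Set ℝ) (R : ℝ) (z : ℂ) : ℕ :=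
  if z.re ∉ D ∧ |z.re| ≤ R then conf T t z else 0

/-- the mean of the functions `(sin (π z / 2 ^ j) / (π z / 2 ^ j)) ^ 2`, `j = 1, …, J` -/
noncomputable def K (J : ℕ) (z : ℂ) : ℂ :=
  (∑ j ∈ Finset.Icc 1 J, if Real.pi * z / 2 ^ j = 0 then 1 else
    (Complex.sin (Real.pi * z / 2 ^ j) / (Real.pi * z / 2 ^ j)) ^ 2) / J

/-- the prediction from the configuration `X` -/
noncomputable def pred (lam : ℝ) (J : ℕ) (X : ℂ → ℕ) : ℝ :=
  lam * ((2 ^ (J + 1) - 2) / J) - ∑ᶠ z : ℂ, (X z : ℝ) * (K J (z / lam)).re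

/-- auxiliary: windows -/
noncomputable def inside0 (T t a : ℝ) : ℕ := ∑ᶠ z : ℂ, if |z.re| ≤ a then conf T t z else 0

/-- auxiliary: windows -/
noncomputable def outside0 (T t a R : ℝ) (z : ℂ) : ℕ := if a < |z.re| ∧ |z.re| ≤ R then conf T t z else 0

theorem inside_Icc (T t a : ℝ) : inside T t (Set.Icc (-a) a) = inside0 T t a := by
  classical
  unfold inside inside0
  refine finsum_congr fun z => ?_
  have h : z.re ∈ Set.Icc (-a) a ↔ |z.re| ≤ a := by rw [Set.mem_Icc, abs_le]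
  by_cases h1 : |z.re| ≤ a
  · rw [if_pos h1, if_pos (h.2 h1)]
  · rw [if_neg h1, if_neg (fun h2 => h1 (h.1 h2))]

theorem outside_Icc (T t a R : ℝ) : outside T t (Set.Icc (-a) a) R = outside0 T t a R := by
  classical
  funext z
  unfold outside outside0
  have h : (z.re ∉ Set.Icc (-a) a ∧ |z.re| ≤ R) ↔ (a < |z.re| ∧ |z.re| ≤ R) := by
    rw [Set.mem_Icc, ← abs_le, not_le]
  by_cases h1 : a < |z.re| ∧ |z.re| ≤ R
  · rw [if_pos h1, if_pos (h.2 h1)]
  · rw [if_neg h1, if_neg (fun h2 => h1 (h.1 h2))]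

/-- the change of coordinates -/
noncomputable def eqv (T t : ℝ) (hT : Real.log T ≠ 0) : ℂ ≃ ℂ where
  toFun z := 1 / 2 + Complex.I * (t + 2 * Real.pi * z / Real.log T)
  invFun s := (-Complex.I * (s - 1 / 2) - t) * (Real.log T / (2 * Real.pi))
  left_inv z := by
    have h1 : (Real.log T : ℂ) ≠ 0 := by exact_mod_cast hT
    have h2 : (Real.pi : ℂ) ≠ 0 := by exact_mod_cast Real.pi_ne_zero
    field_simp
    linear_combination (-2 * (t : ℂ) * Real.log T - 4 * Real.pi * z) * Complex.I_sq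
  right_inv s := by
    have h1 : (Real.log T : ℂ) ≠ 0 := by exact_mod_cast hT
    have h2 : (Real.pi : ℂ) ≠ 0 := by exact_mod_cast Real.pi_ne_zero
    field_simp
    linear_combination (-(2 * s - 1)) * Complex.I_sq

open Pool.Agent.V8H36.NR (Nin Mout Fd Wl main_est Fd_meas)
open Pool.Agent.TH850.UR (kk phiC fej)
open Pool.Agent.TH850.NR (kone cc)
open H370 (zz zz_re zz_im mult Zf zset mem_Zf good_zeta)

theorem K_eq (J : ℕ) : K J = phiC J := rfl

theorem eqv_symm_apply {T t : ℝ} (hT : Real.log T ≠ 0) (s : ℂ) :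
    (eqv T t hT).symm s = (zz s - t) * (Real.log T / (2 * Real.pi)) := rfl

theorem coord_re (T t : ℝ) (s : ℂ) : ((zz s - t) * (Real.log T / (2 * Real.pi))).re =
    (s.im - t) * (Real.log T / (2 * Real.pi)) := by
  have e : ((zz s - t) * (Real.log T / (2 * Real.pi)) : ℂ) = (zz s - t) * ((Real.log T / (2 * Real.pi) : ℝ) : ℂ) := by
    push_cast; ring
  rw [e, Complex.mul_re, Complex.ofReal_re, Complex.ofReal_im, mul_zero, sub_zero, Complex.sub_re, zz_re,
    Complex.ofReal_re]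

theorem conf_coord {T t : ℝ} (hT : Real.log T ≠ 0) (s : ℂ) :
    conf T t ((zz s - t) * (Real.log T / (2 * Real.pi))) =
      if 0 < s.re ∧ s.re < 1 then analyticOrderNatAt riemannZeta s else 0 := by
  have h := (eqv T t hT).apply_symm_apply s
  rw [eqv_symm_apply] at h
  have h' : (1 / 2 + Complex.I * (t + 2 * Real.pi * ((zz s - t) * (Real.log T / (2 * Real.pi))) / Real.log T) : ℂ) = s := h
  unfold conf
  rw [h']

/-- the coordinates of the relevant zeros -/
theorem mem_of_conf {T t : ℝ} (hT : 10 ≤ T) {R : ℝ} (hR : R ≤ Real.log T / (2 * Real.pi)) (h1 : T + Real.log T ≤ t)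
    (h2 : t ≤ 2 * T - Real.log T) (hL : 2 ≤ Real.log T) {s : ℂ}
    (hs : (if 0 < s.re ∧ s.re < 1 then analyticOrderNatAt riemannZeta s else 0) ≠ 0)
    (h3 : |(s.im - t) * (Real.log T / (2 * Real.pi))| ≤ R) : s ∈ Zf riemannZeta T (2 * T) := by
  have hpi := Real.pi_pos
  have hc : 0 < Real.log T / (2 * Real.pi) := by positivity
  have h4 : |s.im - t| ≤ 1 := by
    rw [abs_mul, abs_of_pos hc] at h3
    by_contra hcon
    push Not at hcon
    nlinarith
  rw [abs_le] at h4
  by_cases h5 : 0 < s.re ∧ s.re < 1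
  · rw [if_pos h5] at hs
    rw [mem_Zf good_zeta (by linarith : (1:ℝ) ≤ T)]
    refine ⟨h5.1, h5.2, by linarith, by linarith, ?_⟩
    by_contra h6
    apply hs
    have ha : AnalyticAt ℂ riemannZeta s := good_zeta.an s (by linarith)
    unfold analyticOrderNatAt
    rw [ha.analyticOrderAt_eq_zero.2 h6]
    rfl
  · rw [if_neg h5] at hs
    exact absurd rfl hs

section

variable {lam T t a : ℝ} {J : ℕ}

theorem scale_abs (hlam : 0 < lam) (x : ℝ) : x * Wl lam T = x * (Real.log T / (2 * Real.pi)) / lam := by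
  unfold Pool.Agent.V8H36.NR.Wl
  ring

theorem inside_eq (hlam : 0 < lam) (hT : 10 ≤ T) (ha : a ≤ Real.log T / (2 * Real.pi)) (h1 : T + Real.log T ≤ t)
    (h2 : t ≤ 2 * T - Real.log T) (hL : 2 ≤ Real.log T) : (inside0 T t a : ℝ) = Nin lam (a / lam) T t := by
  classical
  have hl0 : Real.log T ≠ 0 := by linarith
  unfold inside0
  rw [← finsum_comp_equiv (eqv T t hl0).symm]
  have e1 : ∀ s : ℂ, (if |((eqv T t hl0).symm s).re| ≤ a then conf T t ((eqv T t hl0).symm s) else 0) =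
      if |(s.im - t) * (Real.log T / (2 * Real.pi))| ≤ a then
        (if 0 < s.re ∧ s.re < 1 then analyticOrderNatAt riemannZeta s else 0) else 0 := by
    intro s
    rw [eqv_symm_apply, coord_re, conf_coord hl0]
  rw [finsum_congr e1, finsum_eq_sum_of_support_subset (s := Zf riemannZeta T (2 * T))]
  · unfold Pool.Agent.V8H36.NR.Nin
    push_cast
    refine Finset.sum_congr rfl fun s hs => ?_
    rw [mem_Zf good_zeta (by linarith : (1:ℝ) ≤ T)] at hs
    rw [if_pos (show 0 < s.re ∧ s.re < 1 from ⟨hs.1, hs.2.1⟩), scale_abs hlam]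
    unfold Pool.Agent.TH850.NR.kone
    have h5 : |(s.im - t) * (Real.log T / (2 * Real.pi)) / lam| ≤ a / lam ↔
        |(s.im - t) * (Real.log T / (2 * Real.pi))| ≤ a := by
      rw [abs_div, abs_of_pos hlam, div_le_div_iff_of_pos_right hlam]
    by_cases h6 : |(s.im - t) * (Real.log T / (2 * Real.pi))| ≤ a
    · rw [if_pos h6, if_pos (h5.2 h6), mul_one]
      rfl
    · rw [if_neg h6, if_neg (fun h => h6 (h5.1 h)), mul_zero]
  · intro s hs
    rw [Function.mem_support] at hs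
    rw [Finset.mem_coe]
    by_cases h6 : |(s.im - t) * (Real.log T / (2 * Real.pi))| ≤ a
    · rw [if_pos h6] at hs
      exact mem_of_conf hT ha h1 h2 hL hs h6
    · rw [if_neg h6] at hs
      exact absurd rfl hs

theorem outside_eq (hlam : 0 < lam) (hT : 10 ≤ T) (ha : lam * 4 ^ J ≤ Real.log T / (2 * Real.pi)) (h1 : T + Real.log T ≤ t)
    (h2 : t ≤ 2 * T - Real.log T) (hL : 2 ≤ Real.log T) :
    ∑ᶠ z : ℂ, (outside0 T t a (lam * 4 ^ J) z : ℝ) * (K J (z / lam)).re = Mout lam J (a / lam) T t := by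
  classical
  have hl0 : Real.log T ≠ 0 := by linarith
  have hlamC : (lam : ℂ) ≠ 0 := by exact_mod_cast hlam.ne'
  rw [← finsum_comp_equiv (eqv T t hl0).symm]
  have e1 : ∀ s : ℂ, (outside0 T t a (lam * 4 ^ J) ((eqv T t hl0).symm s) : ℝ) * (K J (((eqv T t hl0).symm s) / lam)).re =
      ((if a < |(s.im - t) * (Real.log T / (2 * Real.pi))| ∧ |(s.im - t) * (Real.log T / (2 * Real.pi))| ≤ lam * 4 ^ J then
        (if 0 < s.re ∧ s.re < 1 then analyticOrderNatAt riemannZeta s else 0) else 0 : ℕ) : ℝ) *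
        (phiC J ((zz s - t) * (Wl lam T))).re := by
    intro s
    unfold outside0
    rw [eqv_symm_apply, coord_re, conf_coord hl0, K_eq]
    congr 3
    unfold Pool.Agent.V8H36.NR.Wl
    push_cast
    field_simp
  rw [finsum_congr e1, finsum_eq_sum_of_support_subset (s := Zf riemannZeta T (2 * T))]
  · unfold Pool.Agent.V8H36.NR.Mout
    refine Finset.sum_congr rfl fun s hs => ?_
    rw [mem_Zf good_zeta (by linarith : (1:ℝ) ≤ T)] at hs
    rw [if_pos (show 0 < s.re ∧ s.re < 1 from ⟨hs.1, hs.2.1⟩)]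
    unfold Pool.Agent.TH850.UR.kk
    have h7 : (zz s - (t : ℂ)).re = s.im - t := by
      rw [Complex.sub_re, zz_re, Complex.ofReal_re]
    rw [h7, scale_abs hlam]
    have h5 : (a / lam < |(s.im - t) * (Real.log T / (2 * Real.pi)) / lam| ∧
        |(s.im - t) * (Real.log T / (2 * Real.pi)) / lam| ≤ 4 ^ J) ↔
        (a < |(s.im - t) * (Real.log T / (2 * Real.pi))| ∧ |(s.im - t) * (Real.log T / (2 * Real.pi))| ≤ lam * 4 ^ J) := by
      rw [abs_div, abs_of_pos hlam, div_lt_div_iff_of_pos_right hlam, div_le_iff₀ hlam, mul_comm (4 ^ J) lam]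
    by_cases h6 : a < |(s.im - t) * (Real.log T / (2 * Real.pi))| ∧ |(s.im - t) * (Real.log T / (2 * Real.pi))| ≤ lam * 4 ^ J
    · rw [if_pos h6, if_pos (h5.2 h6)]
      rfl
    · rw [if_neg h6, if_neg (fun h => h6 (h5.1 h)), Nat.cast_zero, zero_mul, Complex.zero_re, mul_zero]
  · intro s hs
    rw [Function.mem_support] at hs
    rw [Finset.mem_coe]
    by_cases h6 : a < |(s.im - t) * (Real.log T / (2 * Real.pi))| ∧ |(s.im - t) * (Real.log T / (2 * Real.pi))| ≤ lam * 4 ^ J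
    · rw [if_pos h6] at hs
      have hs' := left_ne_zero_of_mul hs
      exact mem_of_conf hT ha h1 h2 hL (by exact_mod_cast hs') h6.2
    · rw [if_neg h6, Nat.cast_zero, zero_mul] at hs
      exact absurd rfl hs

theorem Fd_eq (hlam : 0 < lam) (hT : 10 ≤ T) (ha0 : a ≤ Real.log T / (2 * Real.pi))
    (ha : lam * 4 ^ J ≤ Real.log T / (2 * Real.pi)) (h1 : T + Real.log T ≤ t)
    (h2 : t ≤ 2 * T - Real.log T) (hL : 2 ≤ Real.log T) :
    (inside0 T t a : ℝ) - pred lam J (outside0 T t a (lam * 4 ^ J)) = Fd lam J (a / lam) T t := by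
  unfold pred Pool.Agent.V8H36.NR.Fd
  rw [outside_eq hlam hT ha h1 h2 hL, inside_eq hlam hT ha0 h1 h2 hL]
  unfold Pool.Agent.TH850.NR.cc
  ring

end

/-- the explicit form -/
theorem explicit : ∃ lam C : ℝ, 1 ≤ lam ∧ 1 ≤ C ∧ ∀ a : ℝ, 0 ≤ a → ∀ J : ℕ, 1 ≤ J → ∀ δ : ℝ, 0 < δ → δ ≤ 1 →
    ∀ᶠ T : ℝ in atTop, volume {t : ℝ | T ≤ t ∧ t ≤ 2 * T ∧
      δ ≤ |(inside0 T t a : ℝ) - pred lam J (outside0 T t a (lam * 4 ^ J))|} ≤
        ENNReal.ofReal (C * (1 + a ^ 3) / (δ * Real.sqrt J) * T) := by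
  obtain ⟨lam, C, hlam, hC, h⟩ := main_est
  have hlam0 : 0 < lam := by linarith
  refine ⟨lam, 4 * C, hlam, by linarith, fun a ha J hJ δ hδ hδ1 => ?_⟩
  have hJ1 : (1 : ℝ) ≤ J := by exact_mod_cast hJ
  have hJ0 : (0 : ℝ) < J := by linarith
  have hs1 : 1 ≤ Real.sqrt J := by rw [Real.one_le_sqrt]; exact hJ1
  have hs0 : 0 < Real.sqrt J := by linarith
  obtain ⟨T0, hT0, h⟩ := h (a / lam) (by positivity) J hJ (1 / Real.sqrt J) (by positivity)
  have hpi := Real.pi_pos
  have hev : ∀ᶠ T : ℝ in atTop, a + lam * 4 ^ J ≤ Real.log T / (2 * Real.pi) :=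
    (Real.tendsto_log_atTop.atTop_div_const (by positivity)).eventually_ge_atTop _
  have hev2 : ∀ᶠ T : ℝ in atTop, 2 * Real.log T ≤ 1 / Real.sqrt J * T := by
    have h1 := Real.isLittleO_log_id_atTop.bound (show 0 < 1 / (2 * Real.sqrt J) by positivity)
    filter_upwards [h1, eventually_ge_atTop (1 : ℝ)] with T h2 hT
    rw [Real.norm_eq_abs, abs_of_nonneg (Real.log_nonneg hT), id, Real.norm_eq_abs, abs_of_nonneg (by linarith)] at h2
    calc 2 * Real.log T ≤ 2 * (1 / (2 * Real.sqrt J) * T) := by linarith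
      _ = 1 / Real.sqrt J * T := by field_simp
  filter_upwards [hev, hev2, eventually_ge_atTop T0, Real.tendsto_log_atTop.eventually_ge_atTop 2] with T e1 e2 hT hL
  have hT10 : 10 ≤ T := hT0.trans hT
  have hTpos : 0 < T := by linarith
  have h44 : (0 : ℝ) < lam * 4 ^ J := by positivity
  have hsub : {t : ℝ | T ≤ t ∧ t ≤ 2 * T ∧ δ ≤ |(inside0 T t a : ℝ) - pred lam J (outside0 T t a (lam * 4 ^ J))|} ⊆
      (Set.Icc T (T + Real.log T) ∪ Set.Icc (2 * T - Real.log T) (2 * T)) ∪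
      {t : ℝ | ENNReal.ofReal δ ≤ ENNReal.ofReal |Fd lam J (a / lam) T t|} ∩ Set.Icc (T + Real.log T) (2 * T - Real.log T) := by
    rintro t ⟨h1, h2, h3⟩
    by_cases h4 : T + Real.log T ≤ t
    · by_cases h5 : t ≤ 2 * T - Real.log T
      · right
        rw [Fd_eq hlam0 hT10 (by linarith) (by linarith) h4 h5 hL] at h3
        exact ⟨ENNReal.ofReal_le_ofReal h3, h4, h5⟩
      · left; right
        exact ⟨by linarith, h2⟩
    · left; left
      exact ⟨h1, by linarith⟩
  refine (measure_mono hsub).trans ((measure_union_le _ _).trans ?_)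
  have g1 : volume (Set.Icc T (T + Real.log T) ∪ Set.Icc (2 * T - Real.log T) (2 * T)) ≤
      ENNReal.ofReal (1 / Real.sqrt J * T) := by
    refine (measure_union_le _ _).trans ?_
    rw [Real.volume_Icc, Real.volume_Icc, ← ENNReal.ofReal_add (by linarith) (by linarith)]
    apply ENNReal.ofReal_le_ofReal
    linarith
  have g2 : volume ({t : ℝ | ENNReal.ofReal δ ≤ ENNReal.ofReal |Fd lam J (a / lam) T t|} ∩
      Set.Icc (T + Real.log T) (2 * T - Real.log T)) ≤
      ENNReal.ofReal ((C / Real.sqrt J + C * (1 + (a / lam) ^ 3) / J + 1 / Real.sqrt J) * T / δ) := by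
    have hm : Measurable fun t => ENNReal.ofReal |Fd lam J (a / lam) T t| := by
      have := Fd_meas lam J (a / lam) T
      exact (measurable_abs.comp this).ennreal_ofReal
    have g3 := mul_meas_ge_le_lintegral₀ (μ := volume.restrict (Set.Icc (T + Real.log T) (2 * T - Real.log T)))
      hm.aemeasurable (ENNReal.ofReal δ)
    rw [Measure.restrict_apply (measurableSet_le measurable_const hm)] at g3
    have g4 := g3.trans (h T hT)
    have hδ' : ENNReal.ofReal δ ≠ 0 := by
      rw [Ne, ENNReal.ofReal_eq_zero]; linarith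
    rw [ENNReal.ofReal_div_of_pos hδ, ENNReal.le_div_iff_mul_le (Or.inl hδ') (Or.inl ENNReal.ofReal_ne_top), mul_comm]
    exact g4
  refine (add_le_add g1 g2).trans ?_
  rw [← ENNReal.ofReal_add (by positivity) (by positivity)]
  apply ENNReal.ofReal_le_ofReal
  have hb0 : 0 ≤ a / lam := by positivity
  have hb : (a / lam) ^ 3 ≤ a ^ 3 := by
    have : a / lam ≤ a := div_le_self ha hlam
    gcongr
  have ha3 : 0 ≤ a ^ 3 := by positivity
  have k1 : 1 / (J : ℝ) ≤ 1 / Real.sqrt J := by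
    apply one_div_le_one_div_of_le hs0
    have := Real.mul_self_sqrt hJ0.le
    nlinarith
  have k2 : C * (1 + (a / lam) ^ 3) / J ≤ C * (1 + a ^ 3) * (1 / Real.sqrt J) := by
    rw [div_eq_mul_one_div]
    gcongr
  have k3 : C / Real.sqrt J = C * (1 / Real.sqrt J) := by ring
  set q := 1 / Real.sqrt J with hq
  have hq0 : 0 < q := by positivity
  have k4 : q * T ≤ q * T / δ := by
    rw [le_div_iff₀ hδ]
    have : 0 ≤ q * T := by positivity
    nlinarith
  have k5 : (C / Real.sqrt J + C * (1 + (a / lam) ^ 3) / J + q) * T / δ ≤ (C * q + C * (1 + a ^ 3) * q + q) * T / δ := by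
    rw [k3]
    gcongr
  have k6 : 4 * C * (1 + a ^ 3) / (δ * Real.sqrt J) * T = (4 * C * (1 + a ^ 3)) * q * T / δ := by
    rw [hq]; field_simp
  rw [k6]
  have k7 : q * T / δ + (C * q + C * (1 + a ^ 3) * q + q) * T / δ = (1 + C + C * (1 + a ^ 3) + 1) * q * T / δ := by ring
  have k8 : (1 + C + C * (1 + a ^ 3) + 1) ≤ 4 * C * (1 + a ^ 3) := by nlinarith [mul_nonneg (show (0:ℝ) ≤ C by linarith) ha3]
  calc q * T + (C / Real.sqrt J + C * (1 + (a / lam) ^ 3) / J + q) * T / δ ≤
        q * T / δ + (C * q + C * (1 + a ^ 3) * q + q) * T / δ := add_le_add k4 k5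
    _ = (1 + C + C * (1 + a ^ 3) + 1) * q * T / δ := k7
    _ ≤ (4 * C * (1 + a ^ 3)) * q * T / δ := by gcongr

/-- rounding -/
theorem toNat_round {n : ℕ} {x : ℝ} (h : |(n : ℝ) - x| < 1 / 2) : (round x).toNat = n := by
  have h1 : round x = (n : ℤ) := by
    rw [round_eq, Int.floor_eq_iff]
    rw [abs_lt] at h
    constructor
    · push_cast; linarith
    · push_cast; linarith
  rw [h1]
  rfl

/-- finiteness of the configuration in a window -/
theorem fin_supp {T t R : ℝ} (hT : 10 ≤ T) (h1 : T ≤ t) (h2 : t ≤ 2 * T) (hR : R ≤ Real.log T / (2 * Real.pi))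
    (hL : 2 ≤ Real.log T) : {z : ℂ | |z.re| ≤ R ∧ conf T t z ≠ 0}.Finite := by
  classical
  have hl0 : Real.log T ≠ 0 := by linarith
  have hpi := Real.pi_pos
  have hc : 0 < Real.log T / (2 * Real.pi) := by positivity
  refine ((Zf riemannZeta 1 (3 * T)).finite_toSet.image (eqv T t hl0).symm).subset ?_
  rintro z ⟨h3, h4⟩
  refine ⟨eqv T t hl0 z, ?_, (eqv T t hl0).symm_apply_apply z⟩
  set s := eqv T t hl0 z with hs
  have hz : z = (zz s - t) * (Real.log T / (2 * Real.pi)) := by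
    rw [← eqv_symm_apply hl0, hs, Equiv.symm_apply_apply]
  rw [hz, coord_re] at h3
  rw [hz, conf_coord hl0] at h4
  have h5 : |s.im - t| ≤ 1 := by
    rw [abs_mul, abs_of_pos hc] at h3
    by_contra hcon
    push Not at hcon
    nlinarith
  rw [abs_le] at h5
  by_cases h6 : 0 < s.re ∧ s.re < 1
  · rw [if_pos h6] at h4
    rw [Finset.mem_coe, mem_Zf good_zeta (le_refl (1:ℝ))]
    refine ⟨h6.1, h6.2, by linarith, by linarith, ?_⟩
    by_contra h7
    apply h4
    have ha : AnalyticAt ℂ riemannZeta s := good_zeta.an s (by linarith)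
    unfold analyticOrderNatAt
    rw [ha.analyticOrderAt_eq_zero.2 h7]
    rfl
  · rw [if_neg h6] at h4
    exact absurd rfl h4

open Classical in
/-- splitting the window -/
theorem split {T t a R : ℝ} {D : Set ℝ} (hD : D ⊆ Set.Icc (-a) a) (haR : a ≤ R)
    (hfin : {z : ℂ | |z.re| ≤ R ∧ conf T t z ≠ 0}.Finite) :
    inside0 T t a = inside T t D + ∑ᶠ z : ℂ, if |z.re| ≤ a then outside T t D R z else 0 := by
  unfold inside0 inside
  rw [← finsum_add_distrib]
  · refine finsum_congr fun z => ?_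
    unfold outside
    by_cases h1 : z.re ∈ D
    · have h2 : |z.re| ≤ a := abs_le.2 (hD h1)
      rw [if_pos h2, if_pos h1, if_pos h2, if_neg (fun h => h.1 h1), add_zero]
    · rw [if_neg h1, zero_add]
      by_cases h2 : |z.re| ≤ a
      · rw [if_pos h2, if_pos h2, if_pos ⟨h1, h2.trans haR⟩]
      · rw [if_neg h2, if_neg h2]
  · refine hfin.subset ?_
    intro z hz
    rw [Function.mem_support] at hz
    by_cases h1 : z.re ∈ D
    · rw [if_pos h1] at hz
      exact ⟨(abs_le.2 (hD h1)).trans haR, hz⟩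
    · rw [if_neg h1] at hz
      exact absurd rfl hz
  · refine hfin.subset ?_
    intro z hz
    rw [Function.mem_support] at hz
    by_cases h1 : |z.re| ≤ a
    · rw [if_pos h1] at hz
      unfold outside at hz
      by_cases h2 : z.re ∉ D ∧ |z.re| ≤ R
      · rw [if_pos h2] at hz
        exact ⟨h2.2, hz⟩
      · rw [if_neg h2] at hz
        exact absurd rfl hz
    · rw [if_neg h1] at hz
      exact absurd rfl hz

open Classical in
/-- **Main theorem.** -/
theorem result :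
    -- number rigidity
    (∀ D : Set ℝ, Bornology.IsBounded D → ∀ ε : ℝ, 0 < ε → ∃ R : ℝ, (∀ x ∈ D, |x| < R) ∧
      ∃ Φ : (ℂ → ℕ) → ℕ, ∀ᶠ T : ℝ in atTop,
        volume {t : ℝ | T ≤ t ∧ t ≤ 2 * T ∧ inside T t D ≠ Φ (outside T t D R)} ≤ ENNReal.ofReal (ε * T)) ∧
    -- the explicit form, for intervals
    (∃ lam C : ℝ, 1 ≤ lam ∧ 1 ≤ C ∧ ∀ a : ℝ, 0 ≤ a → ∀ J : ℕ, 1 ≤ J → ∀ δ : ℝ, 0 < δ → δ ≤ 1 →
      ∀ᶠ T : ℝ in atTop, volume {t : ℝ | T ≤ t ∧ t ≤ 2 * T ∧
        δ ≤ |(inside T t (Set.Icc (-a) a) : ℝ) - pred lam J (outside T t (Set.Icc (-a) a) (lam * 4 ^ J))|} ≤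
          ENNReal.ofReal (C * (1 + a ^ 3) / (δ * Real.sqrt J) * T)) := by
  refine ⟨?_, ?_⟩
  swap
  · obtain ⟨lam, C, hlam, hC, h⟩ := explicit
    refine ⟨lam, C, hlam, hC, fun a ha J hJ δ hδ hδ1 => ?_⟩
    filter_upwards [h a ha J hJ δ hδ hδ1] with T hT
    simp_rw [inside_Icc, outside_Icc]
    exact hT
  intro D hD ε hε
  obtain ⟨lam, C, hlam, hC, h⟩ := explicit
  -- the window
  obtain ⟨a, ha, hDa⟩ : ∃ a : ℝ, 0 ≤ a ∧ D ⊆ Set.Icc (-a) a := by
    obtain ⟨r, hr⟩ := hD.subset_closedBall 0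
    refine ⟨max r 0, le_max_right _ _, fun x hx => ?_⟩
    have h1 := hr hx
    rw [Metric.mem_closedBall, Real.dist_eq, sub_zero] at h1
    exact abs_le.1 (h1.trans (le_max_left _ _))
  -- choose `J`
  obtain ⟨J, hJ⟩ := exists_nat_ge (max (max 1 a) ((2 * C * (1 + a ^ 3) / ε) ^ 2))
  have hJ1 : (1 : ℝ) ≤ J := ((le_max_left _ _).trans (le_max_left _ _)).trans hJ
  have hJ1' : 1 ≤ J := by exact_mod_cast hJ1
  have hJa : a ≤ J := ((le_max_right _ _).trans (le_max_left _ _)).trans hJ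
  have hJε : (2 * C * (1 + a ^ 3) / ε) ^ 2 ≤ J := (le_max_right _ _).trans hJ
  have h4 : (J : ℝ) < 4 ^ J := by exact_mod_cast Nat.lt_pow_self (by norm_num : 1 < 4)
  have h40 : (0 : ℝ) < 4 ^ J := by positivity
  set R := lam * 4 ^ J with hR
  have haR : a < R := by rw [hR]; nlinarith
  have hpi := Real.pi_pos
  have hev : ∀ᶠ T : ℝ in atTop, R ≤ Real.log T / (2 * Real.pi) :=
    (Real.tendsto_log_atTop.atTop_div_const (by positivity)).eventually_ge_atTop _
  refine ⟨R, fun x hx => lt_of_le_of_lt (abs_le.2 (hDa hx)) haR, fun X =>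
    (round (pred lam J (fun z => if a < |z.re| then X z else 0))).toNat - ∑ᶠ z : ℂ, (if |z.re| ≤ a then X z else 0), ?_⟩
  filter_upwards [h a ha J hJ1' (1 / 2) (by norm_num) (by norm_num), eventually_ge_atTop (10 : ℝ), hev,
    Real.tendsto_log_atTop.eventually_ge_atTop 2] with T hT hT10 hTR hL
  have hT0 : 0 < T := by linarith
  refine (measure_mono ?_).trans (hT.trans (ENNReal.ofReal_le_ofReal ?_))
  · rintro t ⟨h1, h2, h3⟩
    refine ⟨h1, h2, ?_⟩
    by_contra hcon
    push Not at hcon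
    apply h3
    have e1 : (fun z : ℂ => if a < |z.re| then outside T t D R z else 0) = outside0 T t a R := by
      funext z
      unfold outside outside0
      by_cases g1 : a < |z.re|
      · have g2 : z.re ∉ D := fun hz => absurd (abs_le.2 (hDa hz)) (not_le.2 g1)
        rw [if_pos g1]
        by_cases g3 : |z.re| ≤ R
        · rw [if_pos ⟨g2, g3⟩, if_pos ⟨g1, g3⟩]
        · rw [if_neg (fun g => g3 g.2), if_neg (fun g => g3 g.2)]
      · rw [if_neg g1, if_neg (fun g => g1 g.1)]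
    show inside T t D = (round (pred lam J (fun z => if a < |z.re| then outside T t D R z else 0))).toNat -
      ∑ᶠ z : ℂ, (if |z.re| ≤ a then outside T t D R z else 0)
    rw [e1, toNat_round hcon, split hDa haR.le (fin_supp hT10 h1 h2 hTR hL), Nat.add_sub_cancel]
  · have hs : 2 * C * (1 + a ^ 3) / ε ≤ Real.sqrt J := Real.le_sqrt_of_sq_le hJε
    have hs0 : 0 < Real.sqrt J := Real.sqrt_pos.2 (by linarith)
    rw [div_le_iff₀ hε] at hs
    refine mul_le_mul_of_nonneg_right ?_ hT0.le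
    rw [div_le_iff₀ (by positivity)]
    nlinarith

end Pool.Agent.Results.MP_67227b_nt.NumberRigidity
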