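import Pool.Agent.V8H36.PCR.N2

set_option autoImplicit false

open Filter MeasureTheory

namespace Pool.Agent.Results.MP_67227b_nt.TwoWindowLengths

/-- multiplicity of `s` as a zero of the Riemann zeta function -/
noncomputable def zmult (s : ℂ) : ℕ := analyticOrderNatAt riemannZeta s

/-- the number of nontrivial zeros of `ζ` with ordinate in `(0, t]`, with multiplicity -/
noncomputable def NZ (t : ℝ) : ℕ :=
  ∑ᶠ s ∈ {s : ℂ | riemannZeta s = 0 ∧ 0 < s.re ∧ s.re < 1 ∧ 0 < s.im ∧ s.im ≤ t}, zmult s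

/-- for `n ≥ 1`: the `n`-th positive ordinate of a nontrivial zero of `ζ` (nondecreasing order, repeated
according to multiplicity) -/
noncomputable def γ (n : ℕ) : ℝ := sInf {t : ℝ | n ≤ NZ t}

/-- `N_2(T; [α, β])` -/
noncomputable def N2 (T α β : ℝ) : ℕ :=
  {j : ℕ × ℕ | j.1 ≠ j.2 ∧ 1 ≤ j.1 ∧ 1 ≤ j.2 ∧ γ j.1 ≤ T ∧ γ j.2 ≤ T ∧
    (γ j.1 - γ j.2) * (Real.log T / (2 * Real.pi)) ∈ Set.Icc α β}.ncard

/-- the integral over `[α, β]` of `det A(u, 0) = 1 - (sin (π u) / (π u)) ^ 2` -/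
noncomputable def I2 (α β : ℝ) : ℝ := ∫ u in α..β, (1 - (Real.sin (Real.pi * u) / (Real.pi * u)) ^ 2)

/-- `(T / 2π) log T` -/
noncomputable def D (T : ℝ) : ℝ := T / (2 * Real.pi) * Real.log T

/-- the discrepancy of the window `[α, β]` -/
noncomputable def Δ (T α β : ℝ) : ℝ := N2 T α β / D T - I2 α β

/-- the assertion of the question for `k = 2`, when `T → ∞` along the filter `F` -/
def Level2 (F : Filter ℝ) : Prop := ∀ α β : ℝ, α < β →
  Asymptotics.IsEquivalent F (fun T => (N2 T α β : ℝ)) (fun T => I2 α β * D T)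

/-- a one-sided bound (from above for `s = 1`, from below for `s = -1`) for the discrepancy of the windows
`[a, a + ℓ]` of the fixed length `ℓ`, exponentially small in `a` -/
def OneSided (F : Filter ℝ) (ℓ s : ℝ) : Prop := ∃ C c A : ℝ, 0 < C ∧ 0 < c ∧ 0 < A ∧
  ∀ a : ℝ, A ≤ a → ∀ ε : ℝ, 0 < ε → ∀ᶠ T in F, s * Δ T a (a + ℓ) ≤ C * Real.exp (-(c * a)) + ε

theorem N2_eq (T α β : ℝ) : N2 T α β = (Pool.Agent.V8H36.PCR.N2S T α β).ncard := rfl

theorem D_eq (T : ℝ) : D T = Pool.Agent.Y744.Xf T := by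
  unfold D Pool.Agent.Y744.Xf
  ring

theorem I2_eq (α β : ℝ) : I2 α β = Pool.Agent.Y744.gp β - Pool.Agent.Y744.gp α := by
  unfold I2
  rw [Pool.Agent.Y744.gp_sub]
  refine intervalIntegral.integral_congr_ae ?_
  have h0 : ∀ᵐ x : ℝ, x ≠ 0 := by
    rw [ae_iff]
    simp
  filter_upwards [h0] with x hx _
  unfold Pool.Agent.Y744.gd
  have hpi := Real.pi_pos
  rw [Real.sinc_of_ne_zero (by positivity)]

theorem I2_pos {α β : ℝ} (h : α < β) : 0 < I2 α β := by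
  have h1 : I2 α β = ∫ u in α..β, Pool.Agent.Y744.gd u := by
    rw [I2_eq, Pool.Agent.Y744.gp_sub]
  rw [h1]
  refine intervalIntegral.integral_pos h Pool.Agent.Y744.gd_cont.continuousOn
    (fun x _ => Pool.Agent.Y744.gd_nonneg x) ?_
  obtain ⟨c, hc1, hc2⟩ : ∃ c ∈ Set.Icc α β, c ≠ 0 := by
    by_cases ha : α = 0
    · exact ⟨β, ⟨h.le, le_rfl⟩, by rw [ha] at h; exact h.ne'⟩
    · exact ⟨α, ⟨le_rfl, h.le⟩, ha⟩
  refine ⟨c, hc1, ?_⟩
  unfold Pool.Agent.Y744.gd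
  have := Pool.Agent.Y744.G.sinc_lt (x := Real.pi * c) (mul_ne_zero Real.pi_ne_zero hc2)
  linarith

theorem Level2_iff {F : Filter ℝ} (hF : F ≤ atTop) : Level2 F ↔
    ∀ α β : ℝ, α < β → Tendsto (fun T => Pool.Agent.Y744.Nr T α β) F (nhds (Pool.Agent.Y744.pr α β)) := by
  refine forall_congr' fun α => forall_congr' fun β => imp_congr_right fun hαβ => ?_
  rw [← Pool.Agent.V8H36.PCR.law_iff hF α β]
  have hI := I2_pos hαβ
  have hev : ∀ᶠ T in F, I2 α β * D T ≠ 0 := by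
    filter_upwards [hF (eventually_gt_atTop (1 : ℝ))] with T hT
    rw [D_eq]
    exact mul_ne_zero hI.ne' (Pool.Agent.Y744.Xf_pos hT).ne'
  rw [Asymptotics.isEquivalent_iff_tendsto_one hev]
  rw [← I2_eq]
  have hev2 : ∀ᶠ T in F, D T ≠ 0 := by
    filter_upwards [hF (eventually_gt_atTop (1 : ℝ))] with T hT
    rw [D_eq]
    exact (Pool.Agent.Y744.Xf_pos hT).ne'
  constructor
  · intro h
    have h1 := h.const_mul (I2 α β)
    rw [mul_one] at h1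
    refine h1.congr' ?_
    filter_upwards [hev2] with T hT
    rw [← N2_eq, ← D_eq]
    show I2 α β * ((N2 T α β : ℝ) / (I2 α β * D T)) = _
    field_simp
  · intro h
    have h1 := h.const_mul (I2 α β)⁻¹
    rw [inv_mul_cancel₀ hI.ne'] at h1
    refine h1.congr' ?_
    filter_upwards [hev2] with T hT
    rw [← N2_eq, ← D_eq]
    show _ = (N2 T α β : ℝ) / (I2 α β * D T)
    field_simp

theorem Δ_eq {T a ℓ : ℝ} (ha : 0 < a) : Δ T a (a + ℓ) = Pool.Agent.Y744.Nr T a (a + ℓ) -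
    (Pool.Agent.Y744.gp (a + ℓ) - Pool.Agent.Y744.gp a) := by
  unfold Δ
  rw [I2_eq, D_eq, N2_eq, Pool.Agent.V8H36.PCR.N2_Nr, Set.indicator_of_notMem (by
    rintro ⟨h2, h3⟩
    linarith), sub_zero]

theorem OneSided_iff (F : Filter ℝ) (ℓ s : ℝ) : OneSided F ℓ s ↔ Pool.Agent.Y744.OneS F ℓ s := by
  constructor
  · rintro ⟨C, c, A, hC, hc, hA, h⟩
    refine ⟨C, c, A, hC, hc, hA, fun a ha ε hε => ?_⟩
    filter_upwards [h a ha ε hε] with T hT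
    rwa [Δ_eq (by linarith)] at hT
  · rintro ⟨C, c, A, hC, hc, hA, h⟩
    refine ⟨C, c, A, hC, hc, hA, fun a ha ε hε => ?_⟩
    filter_upwards [h a ha ε hε] with T hT
    rwa [Δ_eq (by linarith)]

/-- one length -/
theorem one_length (RH : RiemannHypothesis) {F : Filter ℝ} (hF : F ≤ atTop) {ℓ s : ℝ} (hℓ : 0 < ℓ)
    (hs : s = 1 ∨ s = -1) (h : OneSided F ℓ s) {α β : ℝ} (hαβ : α < β) {ε : ℝ} (hε : 0 < ε) :
    ∀ᶠ T in F, |Δ T α β| ≤ Real.pi ^ 2 / 9 * ℓ ^ 3 + ε := by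
  rw [OneSided_iff] at h
  have h1 := Pool.Agent.Y744.one_length RH hF hℓ hs h hαβ (half_pos hε)
  have h2 := (Metric.tendsto_nhds.1 (Pool.Agent.V8H36.PCR.NZ_Xf.mono_left hF)) (ε / 2) (half_pos hε)
  filter_upwards [h1, h2] with T h3 h4
  rw [Real.dist_eq] at h4
  have e : Δ T α β = (Pool.Agent.Y744.Nr T α β - Pool.Agent.Y744.pr α β) -
      (Set.Icc α β).indicator (fun _ => (SG.NZ T : ℝ) / Pool.Agent.Y744.Xf T - 1) 0 := by
    unfold Δ
    rw [I2_eq, D_eq, N2_eq, Pool.Agent.V8H36.PCR.N2_Nr]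
    unfold Pool.Agent.Y744.pr
    by_cases h0 : (0 : ℝ) ∈ Set.Icc α β
    · rw [Set.indicator_of_mem h0, Set.indicator_of_mem h0, Set.indicator_of_mem h0]
      ring
    · rw [Set.indicator_of_notMem h0, Set.indicator_of_notMem h0, Set.indicator_of_notMem h0]
      ring
  rw [e]
  have h5 : |(Set.Icc α β).indicator (fun _ => (SG.NZ T : ℝ) / Pool.Agent.Y744.Xf T - 1) 0| ≤ ε / 2 := by
    by_cases h0 : (0 : ℝ) ∈ Set.Icc α β
    · rw [Set.indicator_of_mem h0]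
      exact h4.le
    · rw [Set.indicator_of_notMem h0, abs_zero]
      linarith
  have h6 := abs_sub (Pool.Agent.Y744.Nr T α β - Pool.Agent.Y744.pr α β)
    ((Set.Icc α β).indicator (fun _ => (SG.NZ T : ℝ) / Pool.Agent.Y744.Xf T - 1) 0)
  linarith

/-- **Main theorem.** -/
theorem result (hRH : RiemannHypothesis) (F : Filter ℝ) (hF : F ≤ atTop) :
    -- two incommensurable lengths
    (∀ ℓ₁ ℓ₂ s₁ s₂ : ℝ, 0 < ℓ₁ → 0 < ℓ₂ → Irrational (ℓ₁ / ℓ₂) → (s₁ = 1 ∨ s₁ = -1) →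
      (s₂ = 1 ∨ s₂ = -1) → (Level2 F ↔ OneSided F ℓ₁ s₁ ∧ OneSided F ℓ₂ s₂)) ∧
    -- one length
    (∀ ℓ s : ℝ, 0 < ℓ → (s = 1 ∨ s = -1) → OneSided F ℓ s → ∀ α β : ℝ, α < β →
      ∀ ε : ℝ, 0 < ε → ∀ᶠ T in F, |Δ T α β| ≤ Real.pi ^ 2 / 9 * ℓ ^ 3 + ε) ∧
    -- short lengths
    ((∀ δ : ℝ, 0 < δ → ∃ ℓ s : ℝ, 0 < ℓ ∧ ℓ < δ ∧ (s = 1 ∨ s = -1) ∧ OneSided F ℓ s) → Level2 F) := by
  refine ⟨?_, fun ℓ s hℓ hs h α β hαβ ε hε => one_length hRH hF hℓ hs h hαβ hε, ?_⟩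
  · intro ℓ₁ ℓ₂ s₁ s₂ h1 h2 hirr hs1 hs2
    rw [Level2_iff hF, OneSided_iff, OneSided_iff]
    exact Pool.Agent.Y744.criterion hRH hF h1 h2 hirr hs1 hs2
  · intro h
    rw [Level2_iff hF]
    intro α β hαβ
    rw [← Pool.Agent.V8H36.PCR.law_iff hF, ← I2_eq, Metric.tendsto_nhds]
    intro ε hε
    have hpi := Real.pi_pos
    -- choose the length
    obtain ⟨ℓ, s, h1, h2, h3, h4⟩ := h (min 1 (ε / (2 * Real.pi ^ 2))) (by positivity)
    have h5 : ℓ < 1 := lt_of_lt_of_le h2 (min_le_left _ _)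
    have h6 : ℓ < ε / (2 * Real.pi ^ 2) := lt_of_lt_of_le h2 (min_le_right _ _)
    filter_upwards [one_length hRH hF h1 h3 h4 hαβ (show 0 < ε / 4 by positivity)] with T hT
    rw [Real.dist_eq, ← N2_eq, ← D_eq]
    refine lt_of_le_of_lt hT ?_
    have h7 : ℓ ^ 3 ≤ ℓ := by
      have := mul_le_one₀ h5.le h1.le h5.le
      nlinarith
    rw [lt_div_iff₀ (by positivity)] at h6
    have h8 : Real.pi ^ 2 / 9 * ℓ ^ 3 ≤ Real.pi ^ 2 / 9 * ℓ := mul_le_mul_of_nonneg_left h7 (by positivity)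
    nlinarith

end Pool.Agent.Results.MP_67227b_nt.TwoWindowLengths
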